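import Mathlib

set_option autoImplicit false

open MeasureTheory Set Filter Topology
open scoped ENNReal

namespace Pool.Agent.Lib.MP_44758c_an

/-- The countable index set. -/
abbrev D : Type := List ℕ × List Bool

/-- The Cantor space. -/
abbrev X : Type := ℕ → Bool

/-- Initial segments of a point of the Cantor space. -/
def pre (x : X) (n : ℕ) : List Bool := List.ofFn (fun i : Fin n => x i)

@[simp] lemma length_pre (x : X) (n : ℕ) : (pre x n).length = n := by simp [pre]

lemma take_pre (x : X) {m n : ℕ} (h : m ≤ n) : (pre x n).take m = pre x m := by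
  apply List.ext_getElem
  · simp [h]
  · intro i h1 h2
    simp [pre]

/-- The section of `A` along the branch `x`. -/
def sec (A : Set D) (x : X) : Set (List ℕ) := {q | (q, pre x q.length) ∈ A}

/-- Nowhere dense subsets of the tree. -/
def Nwd (N : Set (List ℕ)) : Prop := ∀ s : List ℕ, ∃ s', s <+: s' ∧ ∀ t, s' <+: t → t ∉ N

lemma Nwd.mono {N N' : Set (List ℕ)} (h : Nwd N') (hs : N ⊆ N') : Nwd N := by
  intro s
  obtain ⟨s', h1, h2⟩ := h s
  exact ⟨s', h1, fun t ht htN => h2 t ht (hs htN)⟩

lemma nwd_empty : Nwd ∅ := fun s => ⟨s, List.prefix_rfl, fun t _ => by simp⟩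

lemma Nwd.union {N N' : Set (List ℕ)} (h : Nwd N) (h' : Nwd N') : Nwd (N ∪ N') := by
  intro s
  obtain ⟨s', h1, h2⟩ := h s
  obtain ⟨s'', h3, h4⟩ := h' s'
  refine ⟨s'', h1.trans h3, fun t ht htN => ?_⟩
  rcases htN with htN | htN
  · exact h2 t (h3.trans ht) htN
  · exact h4 t ht htN

lemma nwd_biUnion {ι : Type*} (F : Finset ι) (N : ι → Set (List ℕ)) (h : ∀ i ∈ F, Nwd (N i)) :
    Nwd (⋃ i ∈ F, N i) := by
  classical
  induction F using Finset.induction_on with
  | empty => simpa using nwd_empty
  | insert a F ha ih =>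
    rw [Finset.set_biUnion_insert]
    exact (h a (Finset.mem_insert_self a F)).union
      (ih (fun i hi => h i (Finset.mem_insert_of_mem hi)))

lemma nwd_short (m : ℕ) : Nwd {q : List ℕ | q.length < m} := by
  intro s
  refine ⟨s ++ List.replicate m 0, List.prefix_append _ _, fun t ht => ?_⟩
  have := ht.length_le
  simp only [List.length_append, List.length_replicate] at this
  simp only [mem_ofPred_eq, not_lt]
  omega

lemma not_nwd_univ : ¬ Nwd (univ : Set (List ℕ)) := by
  intro h
  obtain ⟨s', _, h2⟩ := h []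
  exact h2 s' List.prefix_rfl (mem_univ _)

lemma not_nwd_both {N : Set (List ℕ)} (h : Nwd N) (h' : Nwd Nᶜ) : False := by
  have := h.union h'
  rw [union_compl_self] at this
  exact not_nwd_univ this

/-- sections and Boolean operations -/
lemma sec_compl (A : Set D) (x : X) : sec Aᶜ x = (sec A x)ᶜ := rfl
lemma sec_union (A B : Set D) (x : X) : sec (A ∪ B) x = sec A x ∪ sec B x := rfl
lemma sec_inter (A B : Set D) (x : X) : sec (A ∩ B) x = sec A x ∩ sec B x := rfl
lemma sec_diff (A B : Set D) (x : X) : sec (A \ B) x = sec A x \ sec B x := rfl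
lemma sec_mono {A B : Set D} (h : A ⊆ B) (x : X) : sec A x ⊆ sec B x := fun _ hq => h hq
lemma sec_iUnion {ι : Sort*} (A : ι → Set D) (x : X) : sec (⋃ i, A i) x = ⋃ i, sec (A i) x := by
  ext q; simp [sec]

lemma measurable_pre_comp {β : Type*} [MeasurableSpace β] (n : ℕ) (g : List Bool → β) :
    Measurable (fun x : X => g (pre x n)) := by
  have h1 : Measurable (fun (x : X) (i : Fin n) => x i) := by fun_prop
  have h2 : Measurable (fun y : Fin n → Bool => g (List.ofFn y)) := measurable_of_countable _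
  exact h2.comp h1

lemma measurableSet_pre (n : ℕ) (S : Set (List Bool)) : MeasurableSet {x : X | pre x n ∈ S} := by
  have := measurable_pre_comp n (fun l => l ∈ S)
  exact this.setOf

lemma measurableSet_mem_sec (A : Set D) (t : List ℕ) : MeasurableSet {x : X | t ∈ sec A x} :=
  measurableSet_pre t.length {l | (t, l) ∈ A}

lemma measurableSet_nwd (A : Set D) : MeasurableSet {x : X | Nwd (sec A x)} := by
  have : {x : X | Nwd (sec A x)} =
      ⋂ s : List ℕ, ⋃ s' : List ℕ, ⋃ _ : s <+: s', ⋂ t : List ℕ, ⋂ _ : s' <+: t,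
        {x : X | t ∈ sec A x}ᶜ := by
    ext x
    simp [Nwd]
  rw [this]
  refine MeasurableSet.iInter fun s => MeasurableSet.iUnion fun s' => MeasurableSet.iUnion fun _ =>
    MeasurableSet.iInter fun t => MeasurableSet.iInter fun _ => (measurableSet_mem_sec A t).compl

/-- fair coin -/
noncomputable def coin : Measure Bool := (2⁻¹ : ℝ≥0∞) • (Measure.dirac true + Measure.dirac false)

instance : IsProbabilityMeasure coin := by
  constructor
  simp only [coin, Measure.smul_apply, Measure.add_apply, measure_univ, smul_eq_mul]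
  rw [show (1 : ℝ≥0∞) + 1 = 2 by norm_num]
  exact ENNReal.inv_mul_cancel (by norm_num) (by norm_num)

lemma coin_singleton (b : Bool) : coin {b} = 2⁻¹ := by
  cases b <;> simp [coin]

/-- The coin-tossing measure on the Cantor space. -/
noncomputable def lam : Measure X := Measure.infinitePi (fun _ : ℕ => coin)

instance : IsProbabilityMeasure lam := by unfold lam; infer_instance

lemma lam_cylinder (p : List Bool) : lam {x : X | pre x p.length = p} ≤ 2⁻¹ ^ p.length := by
  have h : {x : X | pre x p.length = p} ⊆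
      Set.pi (Finset.range p.length : Set ℕ) (fun i => ({p.getD i false} : Set Bool)) := by
    intro x hx i hi
    simp only [Finset.coe_range, mem_Iio] at hi
    simp only [mem_ofPred_eq] at hx
    have : p.getD i false = p[i] := by simp [List.getD, hi]
    rw [mem_singleton_iff, this]
    have h3 : (pre x p.length)[i]'(by simpa using hi) = x i := by simp [pre]
    rw [← h3]
    congr 1
  refine (measure_mono h).trans ?_
  rw [lam, Measure.infinitePi_pi _ (fun i _ => measurableSet_singleton _)]
  simp [coin_singleton]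

/-- The algebra. -/
def Alg : Set (Set D) := {A | ∀ᵐ x ∂lam, Nwd (sec A x) ∨ Nwd (sec A x)ᶜ}

/-- The ideal. -/
def Idl : Set (Set D) := {A | ∀ᵐ x ∂lam, Nwd (sec A x)}

/-- The set where the section is co-nowhere dense. -/
def big (A : Set D) : Set X := {x | Nwd (sec A x)ᶜ}

lemma mem_alg {A : Set D} : A ∈ Alg ↔ ∀ᵐ x ∂lam, Nwd (sec A x) ∨ Nwd (sec A x)ᶜ := Iff.rfl
lemma mem_idl {A : Set D} : A ∈ Idl ↔ ∀ᵐ x ∂lam, Nwd (sec A x) := Iff.rfl
lemma mem_big {A : Set D} {x : X} : x ∈ big A ↔ Nwd (sec A x)ᶜ := Iff.rfl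

lemma measurableSet_big (A : Set D) : MeasurableSet (big A) := measurableSet_nwd Aᶜ

lemma idl_subset_alg {A : Set D} (h : A ∈ Idl) : A ∈ Alg := by
  rw [mem_alg]; rw [mem_idl] at h
  filter_upwards [h] with x hx using Or.inl hx

lemma alg_compl {A : Set D} (h : A ∈ Alg) : Aᶜ ∈ Alg := by
  rw [mem_alg] at h ⊢
  filter_upwards [h] with x hx
  rw [sec_compl, compl_compl]
  exact hx.symm

lemma alg_union {A B : Set D} (hA : A ∈ Alg) (hB : B ∈ Alg) : A ∪ B ∈ Alg := by
  rw [mem_alg] at hA hB ⊢
  filter_upwards [hA, hB] with x hx hy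
  rw [sec_union, compl_union]
  rcases hx with hx | hx
  · rcases hy with hy | hy
    · exact Or.inl (hx.union hy)
    · exact Or.inr (hy.mono inter_subset_right)
  · exact Or.inr (hx.mono inter_subset_left)

lemma alg_inter {A B : Set D} (hA : A ∈ Alg) (hB : B ∈ Alg) : A ∩ B ∈ Alg := by
  have := alg_compl (alg_union (alg_compl hA) (alg_compl hB))
  rwa [compl_union, compl_compl, compl_compl] at this

lemma alg_diff {A B : Set D} (hA : A ∈ Alg) (hB : B ∈ Alg) : A \ B ∈ Alg := by
  have : A \ B = A ∩ Bᶜ := by ext x; simp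
  rw [this]; exact alg_inter hA (alg_compl hB)

lemma empty_mem_idl : (∅ : Set D) ∈ Idl := by
  rw [mem_idl]
  refine Eventually.of_forall fun x => ?_
  exact nwd_empty

lemma empty_mem_alg : (∅ : Set D) ∈ Alg := idl_subset_alg empty_mem_idl

lemma univ_mem_alg : (univ : Set D) ∈ Alg := by
  have := alg_compl empty_mem_alg
  rwa [compl_empty] at this

lemma idl_mono {A B : Set D} (h : A ⊆ B) (hB : B ∈ Idl) : A ∈ Idl := by
  rw [mem_idl] at hB ⊢
  filter_upwards [hB] with x hx using hx.mono (sec_mono h x)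

lemma idl_union {A B : Set D} (hA : A ∈ Idl) (hB : B ∈ Idl) : A ∪ B ∈ Idl := by
  rw [mem_idl] at hA hB ⊢
  filter_upwards [hA, hB] with x hx hy using hx.union hy

/-- For elements of the algebra, sections outside `big` are nowhere dense. -/
lemma ae_nwd_of_not_big {A : Set D} (hA : A ∈ Alg) : ∀ᵐ x ∂lam, x ∉ big A → Nwd (sec A x) := by
  rw [mem_alg] at hA
  filter_upwards [hA] with x hx h
  exact hx.resolve_right h

lemma lam_big_idl {A : Set D} (hA : A ∈ Idl) : lam (big A) = 0 := by
  rw [mem_idl] at hA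
  refine measure_mono_null (t := {x | ¬ Nwd (sec A x)}) ?_ hA
  intro x hx h
  exact not_nwd_both h hx

lemma lam_big_union {A B : Set D} (hA : A ∈ Alg) (hB : B ∈ Alg) :
    lam (big (A ∪ B)) ≤ lam (big A) + lam (big B) := by
  refine le_trans (measure_mono_ae ?_) (measure_union_le _ _)
  filter_upwards [ae_nwd_of_not_big hA, ae_nwd_of_not_big hB] with x hx hy h
  by_contra hcon
  have hcon' : ¬ (x ∈ big A ∨ x ∈ big B) := hcon
  push Not at hcon'
  have h1 := (hx hcon'.1).union (hy hcon'.2)
  exact not_nwd_both h1 h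

end Pool.Agent.Lib.MP_44758c_an
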