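import Mathlib

/-!
Definitions used in the statement about `MP_44758c_an`.
-/

set_option autoImplicit false

open MeasureTheory Set Filter Topology
open scoped ENNReal NNReal

namespace Pool.Agent.Lib.MP_44758c_an

/-- `P(K)`: the Radon (regular Borel) probability measures on `K`. -/
def ProbK (K : Type) [TopologicalSpace K] [MeasurableSpace K] : Set (Measure K) :=
  {μ | IsProbabilityMeasure μ ∧ μ.Regular}

/-- The convex hull of the Dirac measures. -/
def CoDirac (K : Type) [MeasurableSpace K] : Set (Measure K) :=
  {μ | ∃ (s : Finset K) (w : K → ℝ≥0), ∑ x ∈ s, w x = 1 ∧ μ = ∑ x ∈ s, w x • Measure.dirac x}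

/-- Weak* convergence of a sequence of measures, tested against `C(K)`. -/
def WeakStarTendsto {K : Type} [TopologicalSpace K] [MeasurableSpace K]
    (ν : ℕ → Measure K) (μ : Measure K) : Prop :=
  ∀ f : C(K, ℝ), Tendsto (fun n => ∫ x, f x ∂(ν n)) atTop (𝓝 (∫ x, f x ∂μ))

/-- The weak* sequential closure in `P(K)` of the set of convex combinations of Dirac measures:
the smallest set that contains them and is closed under weak* limits (in `P(K)`) of sequences. -/
def SeqCoDirac (K : Type) [TopologicalSpace K] [MeasurableSpace K] : Set (Measure K) :=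
  ⋂₀ {S | CoDirac K ⊆ S ∧ ∀ (ν : ℕ → Measure K) (μ : Measure K),
    (∀ n, ν n ∈ S) → μ ∈ ProbK K → WeakStarTendsto ν μ → μ ∈ S}

/-- The topology of pointwise convergence on `C(K)`, i.e. the space `C_p(K)`. -/
def cpTopology (K : Type) [TopologicalSpace K] : TopologicalSpace C(K, ℝ) :=
  TopologicalSpace.induced (fun (f : C(K, ℝ)) (x : K) => f x) Pi.topologicalSpace

/-- The Baire σ-algebra of `C_p(K)`: the smallest σ-algebra for which every real function on
`C(K)` that is continuous for the pointwise topology is measurable. -/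
def baCp (K : Type) [TopologicalSpace K] : MeasurableSpace C(K, ℝ) :=
  ⨆ g : {g : C(K, ℝ) → ℝ // @Continuous _ _ (cpTopology K) inferInstance g},
    MeasurableSpace.comap g.1 (borel ℝ)

/-- The functional `f ↦ ∫ f dμ` is measurable for the Baire σ-algebra of `C_p(K)`. -/
def IsBaMeasurable {K : Type} [TopologicalSpace K] [MeasurableSpace K] (μ : Measure K) : Prop :=
  @Measurable _ _ (baCp K) (borel ℝ) (fun f : C(K, ℝ) => ∫ x, f x ∂μ)

end Pool.Agent.Lib.MP_44758c_an
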