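import Pool.Agent.Lib.MP_44758c_an.Limit

set_option autoImplicit false

open MeasureTheory Set Filter Topology
open scoped ENNReal NNReal

namespace Pool.Agent.Lib.MP_44758c_an

/-- Probability measures on `K` which are singular to `mu`, in terms of the algebra. -/
def Cls : Set (Measure K) := {ν | IsProbabilityMeasure ν ∧ ∀ δ : ℝ≥0∞, 0 < δ → ∀ ε : ℝ, 0 < ε →
  ∃ b ∈ Alg, lam (big b) < δ ∧ ν.real (hat bᶜ) < ε}

lemma integral_ind (ν : Measure K) (A : Set D) : ∫ φ, ind A φ ∂ν = ν.real (hat A) := by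
  have : ∀ φ, ind A φ = (hat A).indicator (fun _ => (1:ℝ)) φ := fun φ => rfl
  simp_rw [this]
  rw [integral_indicator (measurableSet_hat A)]
  simp

/-- The cylinder sets in `D`. -/
def cyl (p : List Bool) : Set D := {d | p <+: d.2}

lemma nwd_sec_cyl {p : List Bool} {x : X} (h : pre x p.length ≠ p) : Nwd (sec (cyl p) x) := by
  have : sec (cyl p) x = ∅ := by
    ext q
    simp only [mem_empty_iff_false, iff_false]
    intro (hq : p <+: pre x q.length)
    have h1 := hq.length_le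
    rw [length_pre] at h1
    apply h
    rw [← take_pre x h1]
    exact (List.prefix_iff_eq_take.mp hq).symm
  rw [this]
  exact nwd_empty

lemma nwd_sec_cyl_compl {p : List Bool} {x : X} (h : pre x p.length = p) :
    Nwd (sec (cyl p) x)ᶜ := by
  refine (nwd_short p.length).mono fun q hq => ?_
  by_contra hcon
  simp only [mem_ofPred_eq, not_lt] at hcon
  apply hq
  show p <+: pre x q.length
  rw [List.prefix_iff_eq_take, take_pre x hcon, h]

lemma cyl_mem_alg (p : List Bool) : cyl p ∈ Alg := by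
  rw [mem_alg]
  refine Eventually.of_forall fun x => ?_
  by_cases h : pre x p.length = p
  · exact Or.inr (nwd_sec_cyl_compl h)
  · exact Or.inl (nwd_sec_cyl h)

lemma lam_big_cyl (p : List Bool) : lam (big (cyl p)) ≤ 2⁻¹ ^ p.length := by
  refine le_trans (measure_mono ?_) (lam_cylinder p)
  intro x hx
  by_contra h
  exact not_nwd_both (nwd_sec_cyl h) hx

/-- Points of `D` with short second coordinate. -/
def short (n : ℕ) : Set D := {d | d.2.length < n}

lemma short_mem_idl (n : ℕ) : short n ∈ Idl := by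
  rw [mem_idl]
  refine Eventually.of_forall fun x => ?_
  refine (nwd_short n).mono fun q (hq : (pre x q.length).length < n) => ?_
  rw [length_pre] at hq
  exact hq

lemma exists_small_point (φ : K) {δ : ℝ≥0∞} (hδ : 0 < δ) :
    ∃ b ∈ Alg, lam (big b) < δ ∧ φ ∈ hat b := by
  obtain ⟨n, hn⟩ := ENNReal.exists_inv_two_pow_lt hδ.ne'
  have hcov : (univ : Set D) = short n ∪ ⋃ y ∈ (Finset.univ : Finset (Fin n → Bool)),
      cyl (List.ofFn y) := by
    symm
    rw [eq_univ_iff_forall]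
    rintro ⟨q, l⟩
    by_cases h : l.length < n
    · exact Or.inl h
    · push Not at h
      right
      refine mem_iUnion₂.mpr ⟨fun i => l[i]'(by omega), Finset.mem_univ _, ?_⟩
      show List.ofFn (fun i : Fin n => l[i]'(by omega)) <+: l
      have : List.ofFn (fun i : Fin n => l[i]'(by omega)) = l.take n := by
        apply List.ext_getElem
        · simp [h]
        · intro i h1 h2
          simp
      rw [this]
      exact List.take_prefix n l
  obtain ⟨h1, h2⟩ := hat_biUnion (Finset.univ : Finset (Fin n → Bool)) (fun y => cyl (List.ofFn y))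
    (fun y _ => cyl_mem_alg _)
  have h3 : φ ∈ hat (univ : Set D) := by rw [hat_univ]; exact mem_univ _
  rw [hcov, hat_union (idl_subset_alg (short_mem_idl n)) h1, h2] at h3
  rcases h3 with h3 | h3
  · exact ⟨short n, idl_subset_alg (short_mem_idl n), by
      rw [lam_big_idl (short_mem_idl n)]; exact hδ, h3⟩
  · obtain ⟨y, _, hy⟩ := mem_iUnion₂.mp h3
    refine ⟨_, cyl_mem_alg (List.ofFn y), lt_of_le_of_lt (lam_big_cyl _) ?_, hy⟩
    simpa using hn

lemma exists_small_finset (s : Finset K) : ∀ {δ : ℝ≥0∞}, 0 < δ →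
    ∃ b ∈ Alg, lam (big b) < δ ∧ ∀ φ ∈ s, φ ∈ hat b := by
  classical
  induction s using Finset.induction_on with
  | empty =>
    intro δ hδ
    exact ⟨∅, empty_mem_alg, by rw [lam_big_idl empty_mem_idl]; exact hδ, by simp⟩
  | insert a s ha ih =>
    intro δ hδ
    have hδ2 : 0 < δ / 2 := ENNReal.half_pos hδ.ne'
    obtain ⟨b, hb1, hb2, hb3⟩ := ih hδ2
    obtain ⟨c, hc1, hc2, hc3⟩ := exists_small_point a hδ2
    refine ⟨b ∪ c, alg_union hb1 hc1, ?_, ?_⟩
    · calc lam (big (b ∪ c)) ≤ lam (big b) + lam (big c) := lam_big_union hb1 hc1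
        _ < δ / 2 + δ / 2 := ENNReal.add_lt_add hb2 hc2
        _ = δ := ENNReal.add_halves δ
    · intro φ hφ
      rw [hat_union hb1 hc1]
      rcases Finset.mem_insert.mp hφ with rfl | hφ
      · exact Or.inr hc3
      · exact Or.inl (hb3 φ hφ)

lemma coDirac_mem_cls (s : Finset K) (w : K → ℝ≥0) (hw : ∑ x ∈ s, w x = 1) :
    (∑ x ∈ s, w x • Measure.dirac x : Measure K) ∈ Cls := by
  constructor
  · constructor
    rw [Measure.finset_sum_apply]
    simp only [Measure.smul_apply, measure_univ]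
    have : ∀ x : K, (w x • (1 : ℝ≥0∞)) = (w x : ℝ≥0∞) := fun x => by
      rw [ENNReal.smul_def, smul_eq_mul, mul_one]
    simp_rw [this]
    rw [← ENNReal.coe_finset_sum, hw, ENNReal.coe_one]
  · intro δ hδ ε hε
    obtain ⟨b, hb1, hb2, hb3⟩ := exists_small_finset s hδ
    refine ⟨b, hb1, hb2, ?_⟩
    have : (∑ x ∈ s, w x • Measure.dirac x : Measure K) (hat bᶜ) = 0 := by
      rw [Measure.finset_sum_apply]
      refine Finset.sum_eq_zero fun x hx => ?_
      rw [Measure.smul_apply, Measure.dirac_apply' _ (measurableSet_hat _), hat_compl hb1]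
      simp [hb3 x hx]
    rw [measureReal_def, this]
    simpa using hε

lemma mu_not_mem_cls : mu ∉ Cls := by
  rintro ⟨_, h⟩
  obtain ⟨b, hb1, hb2, hb3⟩ := h (ENNReal.ofReal (1 / 2)) (by simp) (1 / 2) (by norm_num)
  have h1 := mu_real_hat hb1
  have h2 : lam.real (big b) < 1 / 2 := by
    rw [measureReal_def]
    exact (ENNReal.lt_ofReal_iff_toReal_lt (measure_ne_top _ _)).mp hb2
  have h3 : mu.real (hat b) + mu.real (hat b)ᶜ = 1 := by
    rw [probReal_add_probReal_compl (measurableSet_hat b)]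
  rw [hat_compl hb1] at hb3
  linarith

lemma cls_seqClosed (ν : ℕ → Measure K) (hν : ∀ n, ν n ∈ Cls) (μ' : Measure K)
    [IsProbabilityMeasure μ']
    (hlim : ∀ f : C(K, ℝ), Tendsto (fun n => ∫ x, f x ∂(ν n)) atTop (𝓝 (∫ x, f x ∂μ'))) :
    μ' ∈ Cls := by
  refine ⟨inferInstance, fun δ hδ ε hε => ?_⟩
  obtain ⟨ε', hε'pos, hε'sum⟩ := ENNReal.exists_pos_sum_of_countable hδ.ne' ℕ
  have hprob : ∀ n, IsProbabilityMeasure (ν n) := fun n => (hν n).1
  have hb : ∀ n, ∃ b ∈ Alg, lam (big b) < ε' n ∧ (ν n).real (hat bᶜ) < ε / 4 := fun n =>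
    (hν n).2 _ (by exact_mod_cast hε'pos n) _ (by positivity)
  choose b hb1 hb2 hb3 using hb
  obtain ⟨b₀, hb₀, hdiff, hsum⟩ := exists_sup b hb1
  obtain ⟨A, hA, hinf⟩ := star (m := fun n B => (ν n).real (hat B)) (N := fun n => b n \ b₀)
    (fun n => isFA_of_measure (ν n)) hdiff (ε := ε / 4) (by positivity)
  have hbig : b₀ ∪ A ∈ Alg := alg_union hb₀ (idl_subset_alg hA)
  refine ⟨b₀ ∪ A, hbig, ?_, ?_⟩
  · calc lam (big (b₀ ∪ A)) ≤ lam (big b₀) + lam (big A) :=
        lam_big_union hb₀ (idl_subset_alg hA)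
      _ = lam (big b₀) := by rw [lam_big_idl hA, add_zero]
      _ ≤ ∑' n, lam (big (b n)) := hsum
      _ ≤ ∑' n, (ε' n : ℝ≥0∞) := ENNReal.tsum_le_tsum fun n => (hb2 n).le
      _ < δ := hε'sum
  · have h1 := hlim (ind (b₀ ∪ A)ᶜ)
    simp_rw [integral_ind] at h1
    by_contra hcon
    push Not at hcon
    have h2 : ∀ᶠ n in atTop, ε / 2 < (ν n).real (hat (b₀ ∪ A)ᶜ) :=
      h1.eventually (lt_mem_nhds (by linarith))
    obtain ⟨m, hm⟩ := eventually_atTop.mp h2
    obtain ⟨n, hn1, hn2⟩ := hinf m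
    have h3 := hm n hn1
    have hd1 : (b n \ b₀) \ A ∈ Alg := alg_diff (alg_diff (hb1 n) hb₀) (idl_subset_alg hA)
    have h4 : hat (b₀ ∪ A)ᶜ ⊆ hat (b n)ᶜ ∪ hat ((b n \ b₀) \ A) := by
      rw [← hat_union (alg_compl (hb1 n)) hd1]
      refine hat_mono (alg_compl hbig) (alg_union (alg_compl (hb1 n)) hd1) ?_
      intro d hd
      by_cases hdn : d ∈ b n
      · refine Or.inr ⟨⟨hdn, fun h => hd (Or.inl h)⟩, fun h => hd (Or.inr h)⟩
      · exact Or.inl hdn
    have h5 : (ν n).real (hat (b₀ ∪ A)ᶜ) ≤ (ν n).real (hat (b n)ᶜ) + (ν n).real (hat ((b n \ b₀) \ A)) :=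
      (measureReal_mono h4).trans (measureReal_union_le _ _)
    have h6 := hb3 n
    linarith

end Pool.Agent.Lib.MP_44758c_an
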