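import Pool.Agent.Lib.MP_44758c_an.Space

set_option autoImplicit false

open MeasureTheory Set Filter Topology
open scoped ENNReal

namespace Pool.Agent.Lib.MP_44758c_an

/-- The filter of co-nowhere dense sets. -/
def nwdF : Filter (List ℕ) where
  sets := {S | Nwd Sᶜ}
  univ_sets := by
    show Nwd univᶜ
    rw [compl_univ]; exact nwd_empty
  sets_of_superset := by
    intro S T (hS : Nwd Sᶜ) hST
    exact hS.mono (compl_subset_compl.mpr hST)
  inter_sets := by
    intro S T (hS : Nwd Sᶜ) (hT : Nwd Tᶜ)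
    show Nwd (S ∩ T)ᶜ
    rw [compl_inter]
    exact hS.union hT

lemma mem_nwdF {S : Set (List ℕ)} : S ∈ nwdF ↔ Nwd Sᶜ := Iff.rfl

instance : nwdF.NeBot := by
  rw [neBot_iff]
  intro h
  have : (∅ : Set (List ℕ)) ∈ nwdF := by rw [h]; exact mem_bot
  rw [mem_nwdF, compl_empty] at this
  exact not_nwd_univ this

/-- restriction of a function on `D` to the branch `x`. -/
def br (u : D → ℝ) (x : X) : List ℕ → ℝ := fun q => u (q, pre x q.length)

/-- limit along the filter, in the extended nonnegative reals. -/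
noncomputable def ell (u : D → ℝ) (x : X) : ℝ≥0∞ :=
  open scoped Classical in
  ⨆ r : ℚ, if Nwd {q | br u x q ≤ r} then ENNReal.ofReal r else 0

lemma ell_eq {u : D → ℝ} {x : X} {L : ℝ} (h : Tendsto (br u x) nwdF (𝓝 L)) :
    ell u x = ENNReal.ofReal L := by
  classical
  apply le_antisymm
  · refine iSup_le fun r => ?_
    split_ifs with hr
    · refine ENNReal.ofReal_le_ofReal ?_
      by_contra hcon
      push Not at hcon
      have h1 : ∀ᶠ q in nwdF, br u x q < r := h.eventually (gt_mem_nhds hcon)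
      have h2 : Nwd {q | br u x q < r}ᶜ := h1
      exact not_nwd_both (hr.mono fun q (hq : br u x q < r) => hq.le) h2
    · exact bot_le
  · refine le_of_forall_lt fun c hc => ?_
    have hc' : c ≠ ⊤ := (hc.trans ENNReal.ofReal_lt_top).ne
    have hc2 : c.toReal < L := by
      rw [ENNReal.lt_ofReal_iff_toReal_lt hc'] at hc
      exact hc
    obtain ⟨r, hr1, hr2⟩ := exists_rat_btwn hc2
    have h1 : ∀ᶠ q in nwdF, (r : ℝ) < br u x q := h.eventually (lt_mem_nhds hr2)
    have h2 : Nwd {q | br u x q ≤ r} := by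
      have h3 : Nwd {q | (r : ℝ) < br u x q}ᶜ := h1
      refine h3.mono fun q hq => ?_
      simpa using hq
    refine lt_of_lt_of_le ?_ (le_iSup _ r)
    rw [if_pos h2, ENNReal.lt_ofReal_iff_toReal_lt hc']
    exact hr1

lemma measurable_ell : Measurable (fun p : (D → ℝ) × X => ell p.1 p.2) := by
  classical
  unfold ell
  refine Measurable.iSup fun r => ?_
  refine Measurable.ite ?_ measurable_const measurable_const
  have hb : ∀ t : List ℕ, MeasurableSet {p : (D → ℝ) × X | br p.1 p.2 t ≤ r} := by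
    intro t
    have : {p : (D → ℝ) × X | br p.1 p.2 t ≤ r} =
        ⋃ l : List Bool, ({p : (D → ℝ) × X | pre p.2 t.length ∈ ({l} : Set (List Bool))} ∩
          {p : (D → ℝ) × X | p.1 (t, l) ≤ r}) := by
      ext p
      simp [br]
    rw [this]
    refine MeasurableSet.iUnion fun l => MeasurableSet.inter ?_ ?_
    · exact measurable_snd (measurableSet_pre t.length {l})
    · refine measurableSet_le ?_ measurable_const
      exact (measurable_pi_apply (t, l)).comp measurable_fst
  have : {p : (D → ℝ) × X | Nwd {q | br p.1 p.2 q ≤ r}} =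
      ⋂ s : List ℕ, ⋃ s' : List ℕ, ⋃ _ : s <+: s', ⋂ t : List ℕ, ⋂ _ : s' <+: t,
        {p : (D → ℝ) × X | br p.1 p.2 t ≤ r}ᶜ := by
    ext x
    simp [Nwd]
  rw [this]
  refine MeasurableSet.iInter fun s => MeasurableSet.iUnion fun s' => MeasurableSet.iUnion fun _ =>
    MeasurableSet.iInter fun t => MeasurableSet.iInter fun _ => (hb t).compl

/-- The Borel functional on `D → ℝ`. -/
noncomputable def Phi (u : D → ℝ) : ℝ :=
  (∫⁻ x, ell (fun d => max (u d) 0) x ∂lam).toReal -
    (∫⁻ x, ell (fun d => max (-u d) 0) x ∂lam).toReal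

lemma measurable_Phi : Measurable Phi := by
  have h0 : Measurable (fun u : D → ℝ => ∫⁻ x, ell u x ∂lam) :=
    measurable_ell.lintegral_prod_right'
  have h1 : Measurable (fun (u : D → ℝ) (d : D) => max (u d) 0) := by
    rw [measurable_pi_iff]
    intro d
    exact (measurable_pi_apply d).max measurable_const
  have h2 : Measurable (fun (u : D → ℝ) (d : D) => max (-u d) 0) := by
    rw [measurable_pi_iff]
    intro d
    exact (measurable_pi_apply d).neg.max measurable_const
  exact ((h0.comp h1).ennreal_toReal).sub ((h0.comp h2).ennreal_toReal)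

/-- restriction of a continuous function to `D`. -/
noncomputable def res (f : C(K, ℝ)) : D → ℝ := fun d => f (pt d)

/-- The limit function. -/
noncomputable def LL (f : C(K, ℝ)) (x : X) : ℝ :=
  (ell (fun d => max (res f d) 0) x).toReal - (ell (fun d => max (-res f d) 0) x).toReal

lemma LL_eq {f : C(K, ℝ)} {x : X} {L : ℝ} (h : Tendsto (br (res f) x) nwdF (𝓝 L)) :
    LL f x = L := by
  have h1 : Tendsto (br (fun d => max (res f d) 0) x) nwdF (𝓝 (max L 0)) :=
    h.max tendsto_const_nhds
  have h2 : Tendsto (br (fun d => max (-res f d) 0) x) nwdF (𝓝 (max (-L) 0)) :=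
    h.neg.max tendsto_const_nhds
  rw [LL, ell_eq h1, ell_eq h2, ENNReal.toReal_ofReal (le_max_right _ _),
    ENNReal.toReal_ofReal (le_max_right _ _)]
  rcases le_total L 0 with h3 | h3
  · rw [max_eq_right h3, max_eq_left (by linarith)]; ring
  · rw [max_eq_left h3, max_eq_right (by linarith)]; ring

lemma measurable_LL (f : C(K, ℝ)) : Measurable (LL f) := by
  have h : ∀ u : D → ℝ, Measurable (ell u) := fun u =>
    measurable_ell.comp (measurable_const.prodMk measurable_id)
  exact ((h _).ennreal_toReal).sub ((h _).ennreal_toReal)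

/-- The good functions: the limit exists almost everywhere. -/
def Good (f : C(K, ℝ)) : Prop := ∀ᵐ x ∂lam, ∃ L, Tendsto (br (res f) x) nwdF (𝓝 L)

/-- The subalgebra of good functions. -/
def goodAlg : Subalgebra ℝ C(K, ℝ) where
  carrier := {f | Good f}
  mul_mem' := by
    intro f g (hf : Good f) (hg : Good g)
    show Good (f * g)
    filter_upwards [hf, hg] with x hx hy
    obtain ⟨L, hL⟩ := hx
    obtain ⟨M, hM⟩ := hy
    exact ⟨L * M, hL.mul hM⟩
  add_mem' := by
    intro f g (hf : Good f) (hg : Good g)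
    show Good (f + g)
    filter_upwards [hf, hg] with x hx hy
    obtain ⟨L, hL⟩ := hx
    obtain ⟨M, hM⟩ := hy
    exact ⟨L + M, hL.add hM⟩
  algebraMap_mem' := by
    intro r
    show Good _
    refine Eventually.of_forall fun x => ⟨r, ?_⟩
    exact tendsto_const_nhds

lemma tendsto_ind_one {A : Set D} (hA : A ∈ Alg) {x : X} (hx : Nwd (sec A x)ᶜ) :
    Tendsto (br (res (ind A)) x) nwdF (𝓝 1) := by
  refine tendsto_const_nhds.congr' ?_
  have h1 : sec A x ∈ nwdF := hx
  filter_upwards [h1] with q hq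
  have : pt (q, pre x q.length) ∈ hat A := (pt_mem_hat hA _).mpr hq
  simp [br, res, ind, this]

lemma tendsto_ind_zero {A : Set D} (hA : A ∈ Alg) {x : X} (hx : Nwd (sec A x)) :
    Tendsto (br (res (ind A)) x) nwdF (𝓝 0) := by
  refine tendsto_const_nhds.congr' ?_
  have h1 : (sec A x)ᶜ ∈ nwdF := by rw [mem_nwdF, compl_compl]; exact hx
  filter_upwards [h1] with q hq
  have : pt (q, pre x q.length) ∉ hat A := fun h => hq ((pt_mem_hat hA _).mp h)
  simp [br, res, ind, this]

lemma good_ind {A : Set D} (hA : A ∈ Alg) : Good (ind A) := by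
  rw [mem_alg] at hA
  filter_upwards [hA] with x hx
  rcases hx with hx | hx
  · exact ⟨0, tendsto_ind_zero hA hx⟩
  · exact ⟨1, tendsto_ind_one hA hx⟩

lemma ind_apply (A : Set D) (φ : K) : ind A φ = (hat A).indicator (fun _ => (1:ℝ)) φ := rfl

lemma separates : goodAlg.SeparatesPoints := by
  intro φ ψ hne
  have h1 : ∃ A, φ.1 A ≠ ψ.1 A := by
    by_contra hcon
    push Not at hcon
    exact hne (Subtype.ext (funext hcon))
  obtain ⟨A, hA⟩ := h1
  have hAlg : A ∈ Alg := by
    by_contra hcon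
    exact hA ((φ.2.1 A hcon).trans (ψ.2.1 A hcon).symm)
  refine ⟨ind A, ⟨ind A, good_ind hAlg, rfl⟩, ?_⟩
  rw [ind_apply, ind_apply]
  by_cases h1 : φ ∈ hat A
  · by_cases h2 : ψ ∈ hat A
    · rw [mem_hat] at h1 h2
      exact absurd (h1.trans h2.symm) hA
    · simp [h1, h2]
  · by_cases h2 : ψ ∈ hat A
    · simp [h1, h2]
    · rw [mem_hat, Bool.not_eq_true] at h1 h2
      exact absurd (h1.trans h2.symm) hA

lemma good_all (f : C(K, ℝ)) : Good f := by
  have h : ∀ n : ℕ, ∃ g : goodAlg, ‖(g : C(K, ℝ)) - f‖ < 1 / ((n : ℝ) + 1) := fun n =>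
    ContinuousMap.exists_mem_subalgebra_near_continuousMap_of_separatesPoints goodAlg separates f _
      (by positivity)
  choose g hg using h
  have hgood : ∀ n, Good (g n : C(K, ℝ)) := fun n => (g n).2
  have hall : ∀ᵐ x ∂lam, ∀ n, ∃ L, Tendsto (br (res (g n : C(K, ℝ))) x) nwdF (𝓝 L) := by
    rw [ae_all_iff]; exact hgood
  show ∀ᵐ x ∂lam, ∃ L, Tendsto (br (res f) x) nwdF (𝓝 L)
  filter_upwards [hall] with x hx
  rw [← cauchy_map_iff_exists_tendsto]
  rw [Metric.cauchy_iff]
  refine ⟨inferInstance, fun ε hε => ?_⟩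
  obtain ⟨n, hn⟩ := exists_nat_one_div_lt (show 0 < ε / 4 by positivity)
  obtain ⟨L, hL⟩ := hx n
  have h1 : ∀ᶠ q in nwdF, dist (br (res (g n : C(K, ℝ))) x q) L < ε / 4 :=
    (Metric.tendsto_nhds.mp hL) _ (by positivity)
  refine ⟨Metric.ball L (ε / 2), ?_, ?_⟩
  · rw [mem_map]
    filter_upwards [h1] with q hq
    have h2 : ‖((g n : C(K, ℝ)) - f) (pt (q, pre x q.length))‖ < ε / 4 :=
      ((ContinuousMap.norm_coe_le_norm _ _).trans_lt (hg n)).trans hn
    rw [Real.norm_eq_abs, ContinuousMap.sub_apply, abs_lt] at h2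
    rw [Real.dist_eq, abs_lt] at hq
    show br (res f) x q ∈ Metric.ball L (ε / 2)
    rw [Metric.mem_ball, Real.dist_eq, abs_lt]
    simp only [br, res] at hq ⊢
    constructor <;> linarith
  · intro a ha b hb
    rw [Metric.mem_ball] at ha hb
    calc dist a b ≤ dist a L + dist b L := dist_triangle_right a b L
      _ < ε := by linarith

lemma ae_tendsto_LL (f : C(K, ℝ)) : ∀ᵐ x ∂lam, Tendsto (br (res f) x) nwdF (𝓝 (LL f x)) := by
  filter_upwards [good_all f] with x hx
  obtain ⟨L, hL⟩ := hx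
  rw [LL_eq hL]
  exact hL

lemma ae_abs_LL_le (f : C(K, ℝ)) : ∀ᵐ x ∂lam, ‖LL f x‖ ≤ ‖f‖ := by
  filter_upwards [ae_tendsto_LL f] with x hx
  refine le_of_tendsto hx.norm (Eventually.of_forall fun q => ?_)
  exact ContinuousMap.norm_coe_le_norm f _

lemma integrable_LL (f : C(K, ℝ)) : Integrable (LL f) lam :=
  Integrable.of_bound (measurable_LL f).aestronglyMeasurable ‖f‖ (ae_abs_LL_le f)

/-- The positive functional. -/
noncomputable def Lam (f : C(K, ℝ)) : ℝ := ∫ x, LL f x ∂lam

lemma Lam_add (f g : C(K, ℝ)) : Lam (f + g) = Lam f + Lam g := by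
  unfold Lam
  rw [← integral_add (integrable_LL f) (integrable_LL g)]
  refine integral_congr_ae ?_
  filter_upwards [ae_tendsto_LL f, ae_tendsto_LL g, ae_tendsto_LL (f + g)] with x h1 h2 h3
  exact tendsto_nhds_unique h3 (h1.add h2)

lemma Lam_smul (c : ℝ) (f : C(K, ℝ)) : Lam (c • f) = c • Lam f := by
  unfold Lam
  rw [← integral_smul]
  refine integral_congr_ae ?_
  filter_upwards [ae_tendsto_LL f, ae_tendsto_LL (c • f)] with x h1 h3
  exact tendsto_nhds_unique h3 (h1.const_smul c)

lemma Lam_mono {f g : C(K, ℝ)} (h : ∀ φ, f φ ≤ g φ) : Lam f ≤ Lam g := by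
  unfold Lam
  refine integral_mono_ae (integrable_LL f) (integrable_LL g) ?_
  filter_upwards [ae_tendsto_LL f, ae_tendsto_LL g] with x h1 h2
  exact le_of_tendsto_of_tendsto h1 h2 (Eventually.of_forall fun q => h _)

lemma Lam_ind {A : Set D} (hA : A ∈ Alg) : Lam (ind A) = lam.real (big A) := by
  have h1 : ∀ᵐ x ∂lam, LL (ind A) x = (big A).indicator (fun _ => (1:ℝ)) x := by
    filter_upwards [ae_nwd_of_not_big hA] with x hx
    by_cases h : x ∈ big A
    · rw [LL_eq (tendsto_ind_one hA h)]
      simp [h]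
    · rw [LL_eq (tendsto_ind_zero hA (hx h))]
      simp [h]
  unfold Lam
  rw [integral_congr_ae h1, integral_indicator (measurableSet_big A)]
  simp

lemma Lam_eq_Phi (f : C(K, ℝ)) : Lam f = Phi (res f) := by
  have hm : ∀ u : D → ℝ, Measurable (ell u) := fun u =>
    measurable_ell.comp (measurable_const.prodMk measurable_id)
  have hfin : ∀ᵐ x ∂lam, ell (fun d => max (res f d) 0) x < ⊤ ∧ ell (fun d => max (-res f d) 0) x < ⊤ := by
    filter_upwards [ae_tendsto_LL f] with x h
    have h1 : Tendsto (br (fun d => max (res f d) 0) x) nwdF (𝓝 (max (LL f x) 0)) :=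
      h.max tendsto_const_nhds
    have h2 : Tendsto (br (fun d => max (-res f d) 0) x) nwdF (𝓝 (max (-(LL f x)) 0)) :=
      h.neg.max tendsto_const_nhds
    rw [ell_eq h1, ell_eq h2]
    exact ⟨ENNReal.ofReal_lt_top, ENNReal.ofReal_lt_top⟩
  have hbd : ∀ᵐ x ∂lam, ‖(ell (fun d => max (res f d) 0) x).toReal‖ ≤ ‖f‖ ∧
      ‖(ell (fun d => max (-res f d) 0) x).toReal‖ ≤ ‖f‖ := by
    filter_upwards [ae_tendsto_LL f, ae_abs_LL_le f] with x h h'
    have h1 : Tendsto (br (fun d => max (res f d) 0) x) nwdF (𝓝 (max (LL f x) 0)) :=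
      h.max tendsto_const_nhds
    have h2 : Tendsto (br (fun d => max (-res f d) 0) x) nwdF (𝓝 (max (-(LL f x)) 0)) :=
      h.neg.max tendsto_const_nhds
    rw [Real.norm_eq_abs, abs_le] at h'
    rw [ell_eq h1, ell_eq h2, ENNReal.toReal_ofReal (le_max_right _ _),
      ENNReal.toReal_ofReal (le_max_right _ _), Real.norm_eq_abs, Real.norm_eq_abs,
      abs_of_nonneg (le_max_right _ _), abs_of_nonneg (le_max_right _ _)]
    exact ⟨max_le h'.2 (norm_nonneg _), max_le (by linarith [h'.1]) (norm_nonneg _)⟩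
  unfold Lam LL Phi
  rw [integral_sub, integral_toReal (hm _).aemeasurable (hfin.mono fun x hx => hx.1),
    integral_toReal (hm _).aemeasurable (hfin.mono fun x hx => hx.2)]
  · exact Integrable.of_bound (hm _).ennreal_toReal.aestronglyMeasurable ‖f‖
      (hbd.mono fun x hx => hx.1)
  · exact Integrable.of_bound (hm _).ennreal_toReal.aestronglyMeasurable ‖f‖
      (hbd.mono fun x hx => hx.2)

open CompactlySupported in
/-- The functional in the form needed for the Riesz theorem. -/
noncomputable def LamC : C_c(K, ℝ) →ₚ[ℝ] ℝ where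
  toFun g := Lam g.toContinuousMap
  map_add' g g' := Lam_add _ _
  map_smul' c g := Lam_smul c _
  monotone' g g' hgg' := Lam_mono hgg'

/-- The measure. -/
noncomputable def mu : Measure K := RealRMK.rieszMeasure LamC

instance : mu.Regular := by unfold mu; infer_instance

lemma integral_mu (f : C(K, ℝ)) : ∫ φ, f φ ∂mu = Lam f := by
  have := RealRMK.integral_rieszMeasure LamC ⟨f, HasCompactSupport.of_compactSpace f⟩
  exact this

instance : IsFiniteMeasure mu := by unfold mu; infer_instance

lemma mu_real_hat {A : Set D} (hA : A ∈ Alg) : mu.real (hat A) = lam.real (big A) := by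
  rw [← Lam_ind hA, ← integral_mu]
  have : ∀ φ, ind A φ = (hat A).indicator (fun _ => (1:ℝ)) φ := fun φ => rfl
  simp_rw [this]
  rw [integral_indicator (measurableSet_hat A)]
  simp

instance : IsProbabilityMeasure mu := by
  have h1 := mu_real_hat univ_mem_alg
  have h2 : big (univ : Set D) = univ := by
    ext x
    rw [mem_big]
    simp only [mem_univ, iff_true]
    have : (sec (univ : Set D) x)ᶜ = ∅ := by
      ext q; simp [sec]
    rw [this]; exact nwd_empty
  rw [hat_univ, h2] at h1
  have h3 : lam.real univ = 1 := probReal_univ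
  rw [h3, measureReal_def] at h1
  exact ⟨(ENNReal.toReal_eq_one_iff _).mp h1⟩

end Pool.Agent.Lib.MP_44758c_an
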