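import Pool.Agent.Lib.MP_44758c_an.Basic

set_option autoImplicit false

open MeasureTheory Set Filter Topology
open scoped ENNReal

namespace Pool.Agent.Lib.MP_44758c_an

/-- The σ-algebra of the first `n` coordinates. -/
@[reducible] def seqAlg (n : ℕ) : MeasurableSpace X := MeasurableSpace.comap (fun x => pre x n) ⊤

lemma seqAlg_le (n : ℕ) : seqAlg n ≤ (MeasurableSpace.pi : MeasurableSpace X) := by
  rintro s ⟨S, _, rfl⟩
  exact measurableSet_pre n S

lemma seqAlg_mono {m n : ℕ} (h : m ≤ n) : seqAlg m ≤ seqAlg n := by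
  rintro s ⟨S, _, rfl⟩
  refine ⟨{l | l.take m ∈ S}, trivial, ?_⟩
  ext x
  simp only [mem_preimage, mem_ofPred_eq]
  rw [take_pre x h]

/-- The filtration. -/
def fil : Filtration ℕ (MeasurableSpace.pi : MeasurableSpace X) where
  seq := seqAlg
  mono' := fun _ _ h => seqAlg_mono h
  le' := seqAlg_le

lemma iSup_fil : (⨆ n, (fil n : MeasurableSpace X)) = MeasurableSpace.pi := by
  apply le_antisymm
  · exact iSup_le fun n => seqAlg_le n
  · unfold MeasurableSpace.pi
    refine iSup_le fun i => ?_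
    refine le_trans ?_ (le_iSup _ (i + 1))
    rintro s ⟨S, _, rfl⟩
    refine ⟨{l | l.getD i false ∈ S}, trivial, ?_⟩
    ext x
    have : (pre x (i + 1)).getD i false = x i := by
      rw [List.getD_eq_getElem _ _ (by simp)]
      simp only [pre, List.getElem_ofFn]
    simp only [mem_preimage, mem_ofPred_eq, this]

/-- Measurable sets can be approximated by cylinder sets, almost everywhere. -/
lemma exists_approx (B : Set X) (hB : MeasurableSet B) :
    ∃ C : ℕ → Set (List Bool), ∀ᵐ x ∂lam,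
      (x ∈ B → ∃ m, ∀ n, m ≤ n → pre x n ∈ C n) ∧ (x ∉ B → ∃ m, ∀ n, m ≤ n → pre x n ∉ C n) := by
  classical
  let g : X → ℝ := B.indicator (fun _ => 1)
  have hg : Integrable g lam := (integrable_const (1:ℝ)).indicator hB
  have hgm : StronglyMeasurable[⨆ n, (fil n : MeasurableSpace X)] g := by
    rw [iSup_fil]
    exact (stronglyMeasurable_const).indicator hB
  have hlim := hg.tendsto_ae_condExp (ℱ := fil) hgm
  have hC : ∀ n, ∃ C : Set (List Bool), (fun x => pre x n) ⁻¹' C = {x | 1 / 2 < (lam[g | fil n]) x} := by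
    intro n
    have h1 : MeasurableSet[fil n] {x | 1 / 2 < (lam[g | fil n]) x} :=
      (stronglyMeasurable_condExp (m := fil n)).measurable measurableSet_Ioi
    obtain ⟨S, _, hS⟩ := h1
    exact ⟨S, hS⟩
  choose C hC using hC
  refine ⟨C, ?_⟩
  filter_upwards [hlim] with x hx
  constructor
  · intro hxB
    have h1 : g x = 1 := by simp [g, hxB]
    rw [h1] at hx
    have h2 : ∀ᶠ n in atTop, 1 / 2 < (lam[g | fil n]) x :=
      hx.eventually (lt_mem_nhds (by norm_num))
    obtain ⟨m, hm⟩ := eventually_atTop.mp h2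
    refine ⟨m, fun n hn => ?_⟩
    have : x ∈ (fun x => pre x n) ⁻¹' C n := by rw [hC n]; exact hm n hn
    exact this
  · intro hxB
    have h1 : g x = 0 := by simp [g, hxB]
    rw [h1] at hx
    have h2 : ∀ᶠ n in atTop, (lam[g | fil n]) x < 1 / 2 :=
      hx.eventually (gt_mem_nhds (by norm_num))
    obtain ⟨m, hm⟩ := eventually_atTop.mp h2
    refine ⟨m, fun n hn hcon => ?_⟩
    have : x ∈ (fun x => pre x n) ⁻¹' C n := hcon
    rw [hC n] at this
    have h3 : 1 / 2 < (lam[g | fil n]) x := this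
    exact absurd (hm n hn) (not_lt.mpr h3.le)

/-- Every measurable set is realised by a member of the algebra. -/
lemma exists_realize (B : Set X) (hB : MeasurableSet B) :
    ∃ R : Set D, ∀ᵐ x ∂lam, (x ∈ B → Nwd (sec R x)ᶜ) ∧ (x ∉ B → Nwd (sec R x)) := by
  obtain ⟨C, hC⟩ := exists_approx B hB
  refine ⟨{d | d.2 ∈ C d.1.length}, ?_⟩
  filter_upwards [hC] with x hx
  constructor
  · intro hxB
    obtain ⟨m, hm⟩ := hx.1 hxB
    refine (nwd_short m).mono fun q hq => ?_
    by_contra hcon
    simp only [mem_ofPred_eq, not_lt] at hcon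
    exact hq (hm q.length hcon)
  · intro hxB
    obtain ⟨m, hm⟩ := hx.2 hxB
    refine (nwd_short m).mono fun q hq => ?_
    by_contra hcon
    simp only [mem_ofPred_eq, not_lt] at hcon
    exact hm q.length hcon hq

/-- σ-completeness of the quotient algebra. -/
lemma exists_sup (b : ℕ → Set D) (hb : ∀ n, b n ∈ Alg) :
    ∃ b₀ ∈ Alg, (∀ n, b n \ b₀ ∈ Idl) ∧ lam (big b₀) ≤ ∑' n, lam (big (b n)) := by
  have hB : MeasurableSet (⋃ n, big (b n)) := MeasurableSet.iUnion fun n => measurableSet_big _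
  obtain ⟨R, hR⟩ := exists_realize _ hB
  refine ⟨R, ?_, ?_, ?_⟩
  · rw [mem_alg]
    filter_upwards [hR] with x hx
    by_cases h : x ∈ ⋃ n, big (b n)
    · exact Or.inr (hx.1 h)
    · exact Or.inl (hx.2 h)
  · intro n
    rw [mem_idl]
    filter_upwards [hR, ae_nwd_of_not_big (hb n)] with x hx hy
    by_cases h : x ∈ ⋃ n, big (b n)
    · exact (hx.1 h).mono fun q hq => hq.2
    · refine (hy fun hcon => h (mem_iUnion.mpr ⟨n, hcon⟩)).mono fun q hq => hq.1
  · refine le_trans (measure_mono_ae ?_) (measure_iUnion_le _)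
    filter_upwards [hR] with x hx h
    by_contra hcon
    exact not_nwd_both (hx.2 hcon) h

end Pool.Agent.Lib.MP_44758c_an
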