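import Pool.Agent.Lib.MP_44758c_an.Star
import Pool.Agent.Lib.MP_44758c_an.Real

set_option autoImplicit false

open MeasureTheory Set Filter Topology
open scoped ENNReal

namespace Pool.Agent.Lib.MP_44758c_an

/-- Boolean homomorphisms on the algebra (with junk value `false` outside). -/
def IsHom (φ : Set D → Bool) : Prop :=
  (∀ A, A ∉ Alg → φ A = false) ∧ (∀ A ∈ Alg, φ Aᶜ = !φ A) ∧
    (∀ A ∈ Alg, ∀ B ∈ Alg, φ (A ∩ B) = (φ A && φ B))

/-- The Stone space of the algebra. -/
def KSet : Set (Set D → Bool) := {φ | IsHom φ}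

lemma isClosed_KSet : IsClosed KSet := by
  have h1 : KSet = (⋂ A : Set D, ⋂ _ : A ∉ Alg, {φ : Set D → Bool | φ A = false}) ∩
      ((⋂ A : Set D, ⋂ _ : A ∈ Alg, {φ : Set D → Bool | φ Aᶜ = !φ A}) ∩
      (⋂ A : Set D, ⋂ _ : A ∈ Alg, ⋂ B : Set D, ⋂ _ : B ∈ Alg,
        {φ : Set D → Bool | φ (A ∩ B) = (φ A && φ B)})) := by
    ext φ
    simp [KSet, IsHom]
  rw [h1]
  refine IsClosed.inter ?_ (IsClosed.inter ?_ ?_)
  · refine isClosed_iInter fun A => isClosed_iInter fun _ => ?_
    exact isClosed_eq (continuous_apply A) continuous_const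
  · refine isClosed_iInter fun A => isClosed_iInter fun _ => ?_
    exact isClosed_eq (continuous_apply _)
      ((continuous_of_discreteTopology (f := fun b : Bool => !b)).comp (continuous_apply A))
  · refine isClosed_iInter fun A => isClosed_iInter fun _ => isClosed_iInter fun B =>
      isClosed_iInter fun _ => ?_
    have hc : Continuous (fun φ : Set D → Bool => (φ A && φ B)) := by
      have h2 : Continuous (fun φ : Set D → Bool => (φ A, φ B)) := by fun_prop
      exact (continuous_of_discreteTopology (f := fun b : Bool × Bool => (b.1 && b.2))).comp h2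
    exact isClosed_eq (continuous_apply _) hc

/-- The compact space. -/
abbrev K : Type := KSet

instance : CompactSpace K := isCompact_iff_compactSpace.mp isClosed_KSet.isCompact

instance instMeasK : MeasurableSpace K := borel K
instance : BorelSpace K := ⟨rfl⟩

/-- Clopen sets. -/
def hat (A : Set D) : Set K := {φ | φ.1 A = true}

lemma mem_hat {A : Set D} {φ : K} : φ ∈ hat A ↔ φ.1 A = true := Iff.rfl

lemma isClopen_hat (A : Set D) : IsClopen (hat A) := by
  have hc : Continuous (fun φ : K => φ.1 A) := (continuous_apply A).comp continuous_subtype_val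
  have : hat A = (fun φ : K => φ.1 A) ⁻¹' {true} := rfl
  rw [this]
  exact (isClopen_discrete {true}).preimage hc

lemma measurableSet_hat (A : Set D) : MeasurableSet (hat A) := (isClopen_hat A).2.measurableSet

lemma hat_compl {A : Set D} (hA : A ∈ Alg) : hat Aᶜ = (hat A)ᶜ := by
  ext φ
  rw [mem_compl_iff, mem_hat, mem_hat, φ.2.2.1 A hA]
  simp

lemma hat_inter {A B : Set D} (hA : A ∈ Alg) (hB : B ∈ Alg) : hat (A ∩ B) = hat A ∩ hat B := by
  ext φ
  rw [mem_inter_iff, mem_hat, mem_hat, mem_hat, φ.2.2.2 A hA B hB]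
  simp

lemma hat_union {A B : Set D} (hA : A ∈ Alg) (hB : B ∈ Alg) : hat (A ∪ B) = hat A ∪ hat B := by
  have h1 : A ∪ B = (Aᶜ ∩ Bᶜ)ᶜ := by rw [compl_inter, compl_compl, compl_compl]
  rw [h1, hat_compl (alg_inter (alg_compl hA) (alg_compl hB)),
    hat_inter (alg_compl hA) (alg_compl hB), hat_compl hA, hat_compl hB, compl_inter,
    compl_compl, compl_compl]

lemma hat_empty : hat (∅ : Set D) = ∅ := by
  have h := hat_inter empty_mem_alg (alg_compl empty_mem_alg)
  rw [hat_compl empty_mem_alg, inter_compl_self, inter_compl_self] at h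
  exact h

lemma hat_univ : hat (univ : Set D) = univ := by
  have h := hat_compl empty_mem_alg
  rwa [compl_empty, hat_empty, compl_empty] at h

lemma hat_mono {A B : Set D} (hA : A ∈ Alg) (hB : B ∈ Alg) (h : A ⊆ B) : hat A ⊆ hat B := by
  have h1 := hat_inter hA hB
  rw [inter_eq_left.mpr h] at h1
  rw [h1]
  exact inter_subset_right

lemma hat_biUnion {ι : Type*} (F : Finset ι) (A : ι → Set D) (hA : ∀ i ∈ F, A i ∈ Alg) :
    (⋃ i ∈ F, A i) ∈ Alg ∧ hat (⋃ i ∈ F, A i) = ⋃ i ∈ F, hat (A i) := by
  classical
  induction F using Finset.induction_on with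
  | empty => simp [hat_empty, empty_mem_alg]
  | insert a F ha ih =>
    obtain ⟨h1, h2⟩ := ih (fun i hi => hA i (Finset.mem_insert_of_mem hi))
    rw [Finset.set_biUnion_insert, Finset.set_biUnion_insert]
    refine ⟨alg_union (hA a (Finset.mem_insert_self a F)) h1, ?_⟩
    rw [hat_union (hA a (Finset.mem_insert_self a F)) h1, h2]

open scoped Classical in
/-- The points of `D` as points of `K`. -/
noncomputable def pt (d : D) : K :=
  ⟨fun A => decide (A ∈ Alg ∧ d ∈ A), by
    refine ⟨fun A hA => by simp [hA], fun A hA => ?_, fun A hA B hB => ?_⟩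
    · have := alg_compl hA
      simp [hA, this]
    · have := alg_inter hA hB
      simp [hA, hB, this]⟩

lemma pt_mem_hat {A : Set D} (hA : A ∈ Alg) (d : D) : pt d ∈ hat A ↔ d ∈ A := by
  rw [mem_hat]
  simp [pt, hA]

/-- A probability measure on `K` gives a finitely additive measure. -/
lemma isFA_of_measure (ν : Measure K) [IsProbabilityMeasure ν] : IsFA (fun A => ν.real (hat A)) where
  nonneg := fun A => measureReal_nonneg
  add := fun A B hA hB hd => by
    show ν.real (hat (A ∪ B)) = ν.real (hat A) + ν.real (hat B)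
    rw [hat_union (idl_subset_alg hA) (idl_subset_alg hB)]
    refine measureReal_union ?_ (measurableSet_hat B)
    rw [Set.disjoint_iff_inter_eq_empty, ← hat_inter (idl_subset_alg hA) (idl_subset_alg hB),
      disjoint_iff_inter_eq_empty.mp hd, hat_empty]
  le_one := fun A => by
    exact measureReal_le_one

/-- Characteristic functions of the clopen sets as continuous functions. -/
noncomputable def ind (A : Set D) : C(K, ℝ) :=
  ⟨(hat A).indicator (fun _ => 1), IsClopen.continuous_indicator (isClopen_hat A) continuous_const⟩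

end Pool.Agent.Lib.MP_44758c_an
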