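import Pool.Agent.Lib.MP_44758c_an.Basic

set_option autoImplicit false

open MeasureTheory Set Filter Topology
open scoped ENNReal

namespace Pool.Agent.Lib.MP_44758c_an

/-- Finitely additive measures on the ideal, of mass at most one. -/
structure IsFA (m : Set D → ℝ) : Prop where
  nonneg : ∀ A, 0 ≤ m A
  add : ∀ A B, A ∈ Idl → B ∈ Idl → Disjoint A B → m (A ∪ B) = m A + m B
  le_one : ∀ A, m A ≤ 1

lemma IsFA.mono {m : Set D → ℝ} (h : IsFA m) {A B : Set D} (hB : B ∈ Idl) (hAB : A ⊆ B) :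
    m A ≤ m B := by
  have h1 : B = A ∪ (B \ A) := by rw [union_diff_cancel hAB]
  have h2 := h.add A (B \ A) (idl_mono hAB hB) (idl_mono diff_subset hB) disjoint_sdiff_right
  rw [← h1] at h2
  have := h.nonneg (B \ A)
  linarith

lemma IsFA.empty {m : Set D → ℝ} (h : IsFA m) : m ∅ = 0 := by
  have := h.add ∅ ∅ empty_mem_idl empty_mem_idl (by simp)
  rw [union_empty] at this
  linarith

lemma IsFA.union_le {m : Set D → ℝ} (h : IsFA m) {A B : Set D} (hA : A ∈ Idl) (hB : B ∈ Idl) :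
    m (A ∪ B) ≤ m A + m B := by
  have h1 : A ∪ B = A ∪ (B \ A) := by rw [union_diff_self]
  rw [h1, h.add A (B \ A) hA (idl_mono diff_subset hB) disjoint_sdiff_right]
  have := h.mono hB (diff_subset (s := B) (t := A))
  linarith

lemma biUnion_mem_idl {ι : Type*} (F : Finset ι) (A : ι → Set D) (h : ∀ i ∈ F, A i ∈ Idl) :
    (⋃ i ∈ F, A i) ∈ Idl := by
  classical
  induction F using Finset.induction_on with
  | empty => simpa using empty_mem_idl
  | insert a F ha ih =>
    rw [Finset.set_biUnion_insert]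
    exact idl_union (h a (Finset.mem_insert_self a F))
      (ih (fun i hi => h i (Finset.mem_insert_of_mem hi)))

lemma IsFA.biUnion_le {m : Set D → ℝ} (h : IsFA m) {ι : Type*} (F : Finset ι) (A : ι → Set D)
    (hA : ∀ i ∈ F, A i ∈ Idl) : m (⋃ i ∈ F, A i) ≤ ∑ i ∈ F, m (A i) := by
  classical
  induction F using Finset.induction_on with
  | empty => simp [h.empty]
  | insert a F ha ih =>
    rw [Finset.set_biUnion_insert, Finset.sum_insert ha]
    have h1 := ih (fun i hi => hA i (Finset.mem_insert_of_mem hi))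
    have h2 := h.union_le (hA a (Finset.mem_insert_self a F))
      (biUnion_mem_idl F A (fun i hi => hA i (Finset.mem_insert_of_mem hi)))
    linarith

lemma IsFA.sum_disjoint {m : Set D → ℝ} (h : IsFA m) {ι : Type*} (F : Finset ι) (A : ι → Set D)
    (hA : ∀ i ∈ F, A i ∈ Idl) (hd : ∀ i ∈ F, ∀ j ∈ F, i ≠ j → Disjoint (A i) (A j)) :
    m (⋃ i ∈ F, A i) = ∑ i ∈ F, m (A i) := by
  classical
  induction F using Finset.induction_on with
  | empty => simp [h.empty]
  | insert a F ha ih =>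
    rw [Finset.set_biUnion_insert, Finset.sum_insert ha]
    rw [h.add _ _ (hA a (Finset.mem_insert_self a F))
      (biUnion_mem_idl F A (fun i hi => hA i (Finset.mem_insert_of_mem hi)))]
    · rw [ih (fun i hi => hA i (Finset.mem_insert_of_mem hi))
        (fun i hi j hj hij => hd i (Finset.mem_insert_of_mem hi) j (Finset.mem_insert_of_mem hj) hij)]
    · rw [disjoint_iUnion₂_right]
      intro i hi
      refine hd a (Finset.mem_insert_self a F) i (Finset.mem_insert_of_mem hi) ?_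
      rintro rfl
      exact ha hi

/-- The set of points whose tree coordinate extends `s ++ [r]`. -/
def W (s : List ℕ) (r : ℕ) : Set D := {d | s ++ [r] <+: d.1}

lemma W_disjoint (s : List ℕ) {r r' : ℕ} (h : r ≠ r') : Disjoint (W s r) (W s r') := by
  rw [Set.disjoint_left]
  rintro d (hd : s ++ [r] <+: d.1) (hd' : s ++ [r'] <+: d.1)
  have h1 : s ++ [r] = s ++ [r'] :=
    (List.prefix_of_prefix_length_le hd hd' (by simp)).eq_of_length (by simp)
  simp at h1
  exact h h1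

lemma star_step {m : ℕ → Set D → ℝ} (hm : ∀ n, IsFA (m n)) {N : ℕ → Set D}
    (hN : ∀ n, N n ∈ Idl) (s : List ℕ) {δ : ℝ} (hδ : 0 < δ) (M : Set ℕ) (hM : M.Infinite) :
    ∃ (r : ℕ) (M' : Set ℕ), M' ⊆ M ∧ M'.Infinite ∧ ∀ n ∈ M', m n (W s r ∩ N n) < δ := by
  obtain ⟨R, hR⟩ := exists_nat_gt (1 / δ)
  have hR' : 1 < R * δ := by rwa [div_lt_iff₀ hδ] at hR
  have key : ∀ n, ∃ r ∈ Finset.range R, m n (W s r ∩ N n) < δ := by
    intro n
    by_contra hcon
    push Not at hcon
    have h1 := (hm n).sum_disjoint (Finset.range R) (fun r => W s r ∩ N n)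
      (fun r _ => idl_mono inter_subset_right (hN n))
      (fun i _ j _ hij => (W_disjoint s hij).mono inter_subset_left inter_subset_left)
    have h2 : ∑ r ∈ Finset.range R, m n (W s r ∩ N n) ≥ ∑ r ∈ Finset.range R, δ :=
      Finset.sum_le_sum hcon
    simp only [Finset.sum_const, Finset.card_range, nsmul_eq_mul] at h2
    have h3 := (hm n).le_one (⋃ i ∈ Finset.range R, W s i ∩ N n)
    rw [h1] at h3
    linarith
  by_contra hcon
  push Not at hcon
  have hfin : ∀ r ∈ Finset.range R, ({n ∈ M | m n (W s r ∩ N n) < δ} : Set ℕ).Finite := by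
    intro r _
    by_contra hinf
    obtain ⟨n, hn1, hn2⟩ := hcon r _ (sep_subset _ _) hinf
    exact absurd hn1.2 (not_lt.mpr hn2)
  have hcov : M ⊆ ⋃ r ∈ Finset.range R, {n ∈ M | m n (W s r ∩ N n) < δ} := by
    intro n hn
    obtain ⟨r, hr, hr2⟩ := key n
    exact mem_iUnion₂.mpr ⟨r, hr, hn, hr2⟩
  exact hM ((Set.Finite.biUnion (Finset.finite_toSet _) hfin).subset hcov)

/-- Key lemma (the ideal is sequentially inaccessible). -/
theorem star {m : ℕ → Set D → ℝ} (hm : ∀ n, IsFA (m n)) {N : ℕ → Set D}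
    (hN : ∀ n, N n ∈ Idl) {ε : ℝ} (hε : 0 < ε) :
    ∃ A ∈ Idl, ∀ k, ∃ n, k ≤ n ∧ m n (N n \ A) < ε := by
  classical
  obtain ⟨e, he⟩ := exists_surjective_nat (List ℕ)
  -- the recursion
  have hstep : ∀ (j : ℕ) (M : {M : Set ℕ // M.Infinite}), ∃ (p : ℕ × {M : Set ℕ // M.Infinite}),
      p.2.1 ⊆ M.1 ∧ ∀ n ∈ p.2.1, m n (W (e j) p.1 ∩ N n) < ε / 2 / 2 ^ j := by
    intro j M
    obtain ⟨r, M', h1, h2, h3⟩ := star_step hm hN (e j) (δ := ε / 2 / 2 ^ j) (by positivity)
      M.1 M.2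
    exact ⟨(r, ⟨M', h2⟩), h1, h3⟩
  choose F hF1 hF2 using hstep
  let Ms : ℕ → {M : Set ℕ // M.Infinite} :=
    fun j => Nat.rec ⟨univ, infinite_univ⟩ (fun j M => (F j M).2) j
  have hMs : ∀ j, Ms (j + 1) = (F j (Ms j)).2 := fun j => rfl
  let r : ℕ → ℕ := fun j => (F j (Ms j)).1
  have hsub : ∀ j, (Ms (j + 1)).1 ⊆ (Ms j).1 := fun j => hF1 j (Ms j)
  have hanti : ∀ i j, i ≤ j → (Ms j).1 ⊆ (Ms i).1 := by
    intro i j hij
    induction j, hij using Nat.le_induction with
    | base => exact Subset.rfl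
    | succ j _ ih => exact (hsub j).trans ih
  have hsmall : ∀ j, ∀ n ∈ (Ms (j + 1)).1, m n (W (e j) (r j) ∩ N n) < ε / 2 / 2 ^ j :=
    fun j n hn => hF2 j (Ms j) n hn
  have hchoose : ∀ k, ∃ n, n ∈ (Ms (k + 1)).1 ∧ k < n := fun k =>
    (Ms (k + 1)).2.exists_gt k
  choose nn hnn1 hnn2 using hchoose
  let U : ℕ → Set D := fun k => ⋃ j ∈ Finset.range (k + 1), W (e j) (r j)
  let T : ℕ → Set D := fun k => N (nn k) \ U k
  refine ⟨⋃ k, T k, ?_, ?_⟩
  · -- in the ideal
    rw [mem_idl]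
    have hall : ∀ᵐ x ∂lam, ∀ k, Nwd (sec (N k) x) := by
      rw [ae_all_iff]; exact fun k => hN k
    filter_upwards [hall] with x hx
    intro s
    obtain ⟨j, rfl⟩ := he s
    have h1 : Nwd (⋃ k ∈ Finset.range j, sec (T k) x) := by
      refine nwd_biUnion _ _ fun k _ => (hx (nn k)).mono ?_
      exact sec_mono diff_subset x
    obtain ⟨s', hs1, hs2⟩ := h1 (e j ++ [r j])
    refine ⟨s', (List.prefix_append _ _).trans hs1, fun t ht htm => ?_⟩
    rw [sec_iUnion, mem_iUnion] at htm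
    obtain ⟨k, hk⟩ := htm
    by_cases hkj : k < j
    · exact hs2 t ht (mem_iUnion₂.mpr ⟨k, Finset.mem_range.mpr hkj, hk⟩)
    · push Not at hkj
      have h2 : (t, pre x t.length) ∈ N (nn k) \ U k := hk
      refine h2.2 ?_
      refine mem_iUnion₂.mpr ⟨j, Finset.mem_range.mpr (by omega), ?_⟩
      exact hs1.trans ht
  · intro k
    refine ⟨nn k, (hnn2 k).le, ?_⟩
    have h1 : N (nn k) \ ⋃ k, T k ⊆ ⋃ j ∈ Finset.range (k + 1), (W (e j) (r j) ∩ N (nn k)) := by
      rintro d ⟨hd1, hd2⟩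
      by_contra hcon
      refine hd2 (mem_iUnion.mpr ⟨k, hd1, fun hU => hcon ?_⟩)
      obtain ⟨j, hj, hj2⟩ := mem_iUnion₂.mp hU
      exact mem_iUnion₂.mpr ⟨j, hj, hj2, hd1⟩
    have hI : ∀ j ∈ Finset.range (k + 1), (W (e j) (r j) ∩ N (nn k)) ∈ Idl :=
      fun j _ => idl_mono inter_subset_right (hN _)
    calc m (nn k) (N (nn k) \ ⋃ k, T k)
        ≤ m (nn k) (⋃ j ∈ Finset.range (k + 1), (W (e j) (r j) ∩ N (nn k))) :=
          (hm _).mono (biUnion_mem_idl _ _ hI) h1
      _ ≤ ∑ j ∈ Finset.range (k + 1), m (nn k) (W (e j) (r j) ∩ N (nn k)) :=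
          (hm _).biUnion_le _ _ hI
      _ < ∑ j ∈ Finset.range (k + 1), ε / 2 / 2 ^ j := by
          refine Finset.sum_lt_sum_of_nonempty ⟨0, by simp⟩ fun j hj => ?_
          refine hsmall j _ (hanti (j + 1) (k + 1) ?_ (hnn1 k))
          have := Finset.mem_range.mp hj
          omega
      _ ≤ ε := by
          have h4 : ∑ j ∈ Finset.range (k + 1), ε / 2 / 2 ^ j = ε / 2 * ∑ j ∈ Finset.range (k + 1), (1 / 2 : ℝ) ^ j := by
            rw [Finset.mul_sum]
            refine Finset.sum_congr rfl fun j _ => ?_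
            rw [one_div, inv_pow]
            rfl
          rw [h4]
          have h5 : ∑ j ∈ Finset.range (k + 1), (1 / 2 : ℝ) ^ j ≤ 2 := by
            rw [geom_sum_eq (by norm_num)]
            have : (0:ℝ) ≤ (1 / 2) ^ (k + 1) := by positivity
            rw [div_le_iff_of_neg (by norm_num)]
            linarith
          nlinarith

end Pool.Agent.Lib.MP_44758c_an
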